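import Pool.Agent.Run7.h457.CYT.Main

/-!
# Topological types of K-trivial varieties: arbitrary flat part, K3 and bounded factors

Let `X` be a smooth projective complex variety of dimension `n` with numerically trivial canonical
bundle. By Beauville-Bogomolov and de Rham, `X = (ℂ^k × ∏ Y_i) / Γ`, where the `Y_i` are irreducible and
simply connected (K3 surfaces, irreducible holomorphic symplectic manifolds, strict Calabi-Yau
manifolds), and `Γ = π₁(X)` acts by pairs (isometry of `ℂ^k`, automorphism of `∏ Y_i` which permutes
the factors by biholomorphic maps), the image in the isometries is crystallographic and the image in
the automorphisms is finite (`Presented`).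

We prove that the following `X` of dimension `n` have only finitely many topological types:

1. all `X` whose factors `Y_i` are K3 surfaces, or have Picard number one and ample generator of top
self-intersection at most `D` (for example smooth Calabi-Yau hypersurfaces and complete intersections
of dimension at least 3), or belong to a given finite set of manifolds each of which is irreducible
holomorphic symplectic or has finite automorphism group. There is no bound on the polarizations of `X`
and of the flat part, on the group `Γ`, and no condition on the fixed points on the factors.

2. all `X` with `k ≥ n - 2`, that is: `π₁(X)` contains a free abelian group of rank at least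
`2n - 4`.

3. all `X` with factors in a class `H` for which there are, up to equivariant homeomorphism, only
finitely many pairs (a member `Y` of `H`, a finite group of automorphisms of `Y`).

4. Hence Q1 in dimension `n` follows if the irreducible simply connected manifolds of each dimension
`m`, `3 ≤ m ≤ n`, have this property.

The published theorems used are collected in `Known` (Bieberbach; Beauville-Bogomolov; the
classification of finite groups of automorphisms of K3 surfaces up to deformation; Matsusaka's big
theorem; Cattaneo-Fu). What is proved here: a finite group of automorphisms of a product of members
of `H` is conjugate into one of finitely many finite sets (the groupoid of coordinate maps), the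
groups `Γ` are conjugate into finitely many products `C × W`, and a Goursat type argument gives
finitely many groups `Γ`.
-/

set_option autoImplicit false

namespace Pool.Agent.Results.MP_3d72f2_ag.FlatAndBoundedFactors

open Run7.H457.CYT

theorem result (W : World) (B : Basic W) (K : Known W) (n : ℕ) :
    (∀ (D : ℕ) (S : Set W.I), S.Finite → (∀ a ∈ S, a ∈ W.hk ∨ (W.bih a a).Finite) →
      FinTop W (Built W {a | W.idim a = 2 ∨ (W.rho a = 1 ∧ W.deg a ≤ D) ∨ a ∈ S} n)) ∧
    FinTop W (fun X => W.dim X = n ∧ ∃ (k r : ℕ) (Y : Fin r → W.I),
      k + ∑ i, W.idim (Y i) = W.dim X ∧ Presented W X k r Y ∧ n ≤ k + 2) ∧
    (∀ H : Set W.I, FiniteActions W H → FinTop W (Built W H n)) ∧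
    ((∀ m, 3 ≤ m → m ≤ n → FiniteActions W {a | W.idim a = m}) →
      FinTop W (fun X => W.dim X = n)) :=
  ⟨fun D S hS hS' => main_class B K n D S hS hS', main_flat B K n,
    fun H hH => built_finite B K.bieb H hH n, fun h => main_reduction B K n h⟩

end Pool.Agent.Results.MP_3d72f2_ag.FlatAndBoundedFactors
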